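import Mathlib

/-!
# Yamada's inequality (MP_25136f_nt): definitions

Every prime `q` which violates the inequality of `Holds` lies, for some `u`, among the
solutions of `q ^ (p - 1) = 1` modulo `p ^ u` with `q < p ^ (u - 2)` (`Bad p q`).
-/

namespace Pool.Agent.H87.YA

/-- Yamada's inequality `u_p(q) <= 2 + (log q + log log q + log log p) / log p`, and the stronger
one without the two double logarithms. -/
def Holds (p q : ℕ) : Prop :=
  ((padicValNat p (q ^ (p - 1) - 1) : ℕ) : ℝ) ≤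
      2 + (Real.log (q : ℝ) + Real.log (Real.log (q : ℝ)) + Real.log (Real.log (p : ℝ)))
        / Real.log (p : ℝ) ∧
  ((padicValNat p (q ^ (p - 1) - 1) : ℕ) : ℝ) ≤ 2 + Real.log (q : ℝ) / Real.log (p : ℝ)

/-- The exceptional primes up to `x`. -/
def Exc (p : ℕ) (x : ℝ) : Set ℕ := {q : ℕ | q.Prime ∧ (q : ℝ) ≤ x ∧ ¬ Holds p q}

/-- Arithmetic form of a violation (for `u <= 2` the second condition is `q < 1`). -/
def Bad (p q : ℕ) : Prop := ∃ u : ℕ, p ^ u ∣ q ^ (p - 1) - 1 ∧ q < p ^ (u - 2)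

/-- Bad primes in `(y, x]`. -/
noncomputable def BadIn (p : ℕ) (y x : ℝ) : Finset ℕ :=
  by
    classical
    exact (Finset.range (⌊x⌋₊ + 1)).filter (fun q => q.Prime ∧ Bad p q ∧ y < (q : ℝ))

end Pool.Agent.H87.YA
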