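import Pool.Agent.H87.YA.M2

/-!
# The gap principle

PROOF of `gap`: `p ^ u | q ^ (p-1) - 1`, `q < p ^ (u-2)` and `p ^ v | r ^ (p-1) - 1`,
`r < p ^ (v-2)`, so `u, v >= 3`.  With `w = min u v`: `p ^ w` divides `r - q` (`modEq_pow`), so
`p ^ w <= r - q < r`.  If `w = v` then `p ^ v < r < p ^ (v - 2)`, absurd.  So `w = u` and
`r > p ^ u = p ^ 2 * p ^ (u - 2) > p ^ 2 * q`.
PROOF of `card_badIn_le`: `q -> q mod p` maps `BadIn p y x` injectively (by `gap`) into
`{1, ..., p - 1}` (`p` does not divide `q`).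
PROOF of `card_bad_large`: induction on a natural number `n` with `x <= p ^ (2 n)` (or strong
induction): if `x <= p ^ 2` then use `card_badIn_le` with `y = x / p ^ 2 <= 1` (all primes are
`>= 2 > y`), otherwise `BadIn p 0 x` is contained in `BadIn p 0 (x / p ^ 2) ∪ BadIn p (x / p ^ 2) x`.
One gets even `(p - 1) (1 + log x / (2 log p))`.
-/

namespace Pool.Agent.H87.YA

private theorem M4_three_le {p q u : ℕ} (hq : q.Prime) (h : q < p ^ (u - 2)) : 3 ≤ u := by
  by_contra hu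
  have h0 : u - 2 = 0 := by omega
  rw [h0, pow_zero] at h
  have := hq.two_le
  omega

/-- Two bad primes in the same class modulo `p` are far apart. -/
theorem gap {p q r : ℕ} (hp : p.Prime) (hq : q.Prime) (hr : r.Prime) (hbq : Bad p q)
    (hbr : Bad p r) (hqr : q < r) (hmod : q ≡ r [MOD p]) : p ^ 2 * q < r := by
  obtain ⟨u, hu1, hu2⟩ := hbq
  obtain ⟨v, hv1, hv2⟩ := hbr
  have hu3 : 3 ≤ u := M4_three_le hq hu2
  have hv3 : 3 ≤ v := M4_three_le hr hv2
  have hp0 : 0 < p := hp.pos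
  have hmodw : q ≡ r [MOD p ^ (min u v)] := by
    apply modEq_pow hp (by omega) _ hq.one_lt.le _ hr.one_lt.le hmod
    · exact (pow_dvd_pow p (min_le_left u v)).trans hu1
    · exact (pow_dvd_pow p (min_le_right u v)).trans hv1
  have hdvd : p ^ (min u v) ∣ r - q := (Nat.modEq_iff_dvd' hqr.le).1 hmodw
  have hle : p ^ (min u v) ≤ r - q := Nat.le_of_dvd (by omega) hdvd
  have hqpos : 0 < q := hq.pos
  rcases le_total u v with huv | huv
  · rw [min_eq_left huv] at hle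
    have hpu : p ^ u = p ^ 2 * p ^ (u - 2) := by
      rw [← pow_add]; congr 1; omega
    have h1 : p ^ 2 * q < p ^ 2 * p ^ (u - 2) :=
      Nat.mul_lt_mul_of_pos_left hu2 (by positivity)
    rw [← hpu] at h1
    omega
  · rw [min_eq_right huv] at hle
    have h1 : p ^ (v - 2) ≤ p ^ v := Nat.pow_le_pow_right hp0 (by omega)
    omega

private theorem M4_mem {p : ℕ} {y x : ℝ} {q : ℕ} :
    q ∈ BadIn p y x ↔ q < ⌊x⌋₊ + 1 ∧ q.Prime ∧ Bad p q ∧ y < (q : ℝ) := by
  classical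
  unfold BadIn
  rw [Finset.mem_filter, Finset.mem_range]

private theorem M4_le {p : ℕ} {y x : ℝ} {q : ℕ} (h : q ∈ BadIn p y x) : (q : ℝ) ≤ x := by
  rw [M4_mem] at h
  have h1 : q ≤ ⌊x⌋₊ := by omega
  have h2 : q ≠ 0 := h.2.1.ne_zero
  have hx : 0 ≤ x := by
    by_contra hx
    have : ⌊x⌋₊ = 0 := Nat.floor_of_nonpos (by linarith)
    omega
  exact (Nat.le_floor_iff hx).1 h1

/-- At most `p - 1` bad primes in `(y, p ^ 2 y]`. -/
theorem card_badIn_le {p : ℕ} (hp : p.Prime) {y x : ℝ} (hy : 0 ≤ y) (hxy : x ≤ (p : ℝ) ^ 2 * y) :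
    (BadIn p y x).card ≤ p - 1 := by
  classical
  have hp0 : 0 < p := hp.pos
  have hcard : (Finset.Icc 1 (p - 1)).card = p - 1 := by
    rw [Nat.card_Icc]; omega
  rw [← hcard]
  apply Finset.card_le_card_of_injOn (fun q => q % p)
  · intro q hq
    have hq' := M4_mem.1 (Finset.mem_coe.1 hq)
    obtain ⟨-, hqp, ⟨u, hu1, hu2⟩, -⟩ := hq'
    have hu3 := M4_three_le hqp hu2
    have hlt : q % p < p := Nat.mod_lt _ hp0
    have hne : q % p ≠ 0 := by
      intro h0
      have hpq : p ∣ q := Nat.dvd_of_mod_eq_zero h0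
      have h1 : p ∣ q ^ (p - 1) - 1 := (dvd_pow_self p (by omega)).trans hu1
      have h2 : p ∣ q ^ (p - 1) := hpq.trans (dvd_pow_self q (by have := hp.two_le; omega))
      have h3 : 1 ≤ q ^ (p - 1) := Nat.one_le_pow _ _ hqp.pos
      have h4 : p ∣ 1 := by
        have := (Nat.dvd_sub h2 h1)
        have h5 : q ^ (p - 1) - (q ^ (p - 1) - 1) = 1 := by omega
        rwa [h5] at this
      have := Nat.le_of_dvd one_pos h4
      have := hp.two_le
      omega
    have hpos : 1 ≤ q % p := Nat.one_le_iff_ne_zero.2 hne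
    have hle : q % p ≤ p - 1 := by omega
    simp only [Finset.coe_Icc, Set.mem_Icc]
    exact ⟨hpos, hle⟩
  · -- injectivity
    have key : ∀ a b : ℕ, a ∈ BadIn p y x → b ∈ BadIn p y x → a % p = b % p → ¬ a < b := by
      intro a b ha hb hab hlt
      have ha' := M4_mem.1 ha
      have hb' := M4_mem.1 hb
      have hg := gap hp ha'.2.1 hb'.2.1 ha'.2.2.1 hb'.2.2.1 hlt hab
      have hbx := M4_le hb
      have hg' : (p : ℝ) ^ 2 * (a : ℝ) < (b : ℝ) := by exact_mod_cast hg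
      have hpp : (0 : ℝ) < (p : ℝ) ^ 2 := by positivity
      have h1 : (p : ℝ) ^ 2 * y < (p : ℝ) ^ 2 * (a : ℝ) :=
        mul_lt_mul_of_pos_left ha'.2.2.2 hpp
      linarith
    intro a ha b hb hab
    have ha' := Finset.mem_coe.1 ha
    have hb' := Finset.mem_coe.1 hb
    rcases lt_trichotomy a b with h | h | h
    · exact absurd h (key a b ha' hb' hab)
    · exact h
    · exact absurd h (key b a hb' ha' hab.symm)

private theorem M4_induct {p : ℕ} (hp : p.Prime) (n : ℕ) :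
    ∀ x : ℝ, 0 ≤ x → x ≤ (p : ℝ) ^ (2 * n) → (BadIn p 0 x).card ≤ (p - 1) * n := by
  classical
  induction n with
  | zero =>
    intro x hx0 hx
    have hempty : BadIn p 0 x = ∅ := by
      rw [Finset.eq_empty_iff_forall_notMem]
      intro q hq
      have h1 := M4_le hq
      have h2 := (M4_mem.1 hq).2.1.two_le
      have h3 : (2 : ℝ) ≤ (q : ℝ) := by exact_mod_cast h2
      simp only [mul_zero, pow_zero] at hx
      linarith
    rw [hempty]
    simp
  | succ n ih =>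
    intro x hx0 hx
    have hpp : (0 : ℝ) < (p : ℝ) ^ 2 := by
      have := hp.pos
      positivity
    have h1 : x / (p : ℝ) ^ 2 ≤ (p : ℝ) ^ (2 * n) := by
      rw [div_le_iff₀ hpp]
      calc x ≤ (p : ℝ) ^ (2 * (n + 1)) := hx
        _ = (p : ℝ) ^ (2 * n) * (p : ℝ) ^ 2 := by rw [← pow_add]; congr 1
    have h2 : 0 ≤ x / (p : ℝ) ^ 2 := by positivity
    have hA := ih (x / (p : ℝ) ^ 2) h2 h1
    have hB := card_badIn_le hp h2 (x := x) (by
      rw [mul_div_cancel₀ _ hpp.ne'])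
    have hsub : BadIn p 0 x ⊆ BadIn p 0 (x / (p : ℝ) ^ 2) ∪ BadIn p (x / (p : ℝ) ^ 2) x := by
      intro q hq
      have hq' := M4_mem.1 hq
      rw [Finset.mem_union]
      by_cases hlt : x / (p : ℝ) ^ 2 < (q : ℝ)
      · right
        exact M4_mem.2 ⟨hq'.1, hq'.2.1, hq'.2.2.1, hlt⟩
      · left
        have hle : (q : ℝ) ≤ x / (p : ℝ) ^ 2 := not_lt.1 hlt
        have h3 : q ≤ ⌊x / (p : ℝ) ^ 2⌋₊ := Nat.le_floor hle
        exact M4_mem.2 ⟨by omega, hq'.2.1, hq'.2.2.1, hq'.2.2.2⟩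
    calc (BadIn p 0 x).card ≤ _ := Finset.card_le_card hsub
      _ ≤ (BadIn p 0 (x / (p : ℝ) ^ 2)).card + (BadIn p (x / (p : ℝ) ^ 2) x).card :=
        Finset.card_union_le _ _
      _ ≤ (p - 1) * n + (p - 1) := Nat.add_le_add hA hB
      _ = (p - 1) * (n + 1) := by ring

/-- The bound for large `x`. -/
theorem card_bad_large {p : ℕ} (hp : p.Prime) {x : ℝ} (hx : 1 ≤ x) :
    ((BadIn p 0 x).card : ℝ) ≤ (p : ℝ) * (1 + Real.log x / Real.log p) := by
  have hp2 : (2 : ℝ) ≤ (p : ℝ) := by exact_mod_cast hp.two_le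
  have hlp : 0 < Real.log (p : ℝ) := Real.log_pos (by linarith)
  have hlx : 0 ≤ Real.log x := Real.log_nonneg hx
  set t : ℝ := Real.log x / (2 * Real.log (p : ℝ)) with ht
  have ht0 : 0 ≤ t := by positivity
  have hn := Nat.ceil_lt_add_one ht0
  have hn' := Nat.le_ceil t
  have hxn : x ≤ (p : ℝ) ^ (2 * ⌈t⌉₊) := by
    have hx0 : 0 < x := by linarith
    rw [← Real.log_le_log_iff hx0 (by positivity), Real.log_pow]
    have : t * (2 * Real.log (p : ℝ)) ≤ (⌈t⌉₊ : ℝ) * (2 * Real.log (p : ℝ)) :=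
      mul_le_mul_of_nonneg_right hn' (by positivity)
    have h2 : t * (2 * Real.log (p : ℝ)) = Real.log x := by
      rw [ht]; field_simp
    rw [h2] at this
    push_cast
    linarith
  have hcard := M4_induct hp ⌈t⌉₊ x (by linarith) hxn
  have hcard' : ((BadIn p 0 x).card : ℝ) ≤ (((p - 1) * ⌈t⌉₊ : ℕ) : ℝ) := by exact_mod_cast hcard
  refine hcard'.trans ?_
  have h1 : (((p - 1) * ⌈t⌉₊ : ℕ) : ℝ) ≤ (p : ℝ) * (⌈t⌉₊ : ℝ) := by
    push_cast
    apply mul_le_mul_of_nonneg_right _ (Nat.cast_nonneg _)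
    exact_mod_cast Nat.sub_le p 1
  refine h1.trans ?_
  apply mul_le_mul_of_nonneg_left _ (by linarith)
  have h3 : t ≤ Real.log x / Real.log (p : ℝ) := by
    rw [ht]
    apply div_le_div_of_nonneg_left hlx hlp
    linarith
  linarith

end Pool.Agent.H87.YA
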