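import Pool.Agent.H87.YA.M5

/-!
# Small `X`: `X ^ 2 <= p`

PROOF: `t = log X / log p <= 1 / 2`, `m = ⌊3 / t⌋₊ >= 6`, `card_badIn_root` with `j = 1`.
`X ^ m <= p ^ 3` because `m log X <= 3 log p`.  So the bound is `m + m (2 p) ^ (1/m)`,
`2 ^ (1/m) <= 2 ^ (1/6) < 1.13`, and `p ^ (1/m) <= X ^ (2/5)` because `m > 3 / t - 1 >= 5 / (2 t)`
(as `t <= 1/2`).  Also `X ^ (2/5) >= 2 ^ (2/5) > 1.3`.  Total `<= m (1 + 1.13 X ^ (2/5)) <=
2 m X ^ (2/5) <= (6 / t) X ^ (2/5)`.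
-/

namespace Pool.Agent.H87.YA

/-- `X ^ 2 <= p`: take `m` the integral part of `3 log p / log X`. -/
theorem dyadic_small {p : ℕ} (hp : p.Prime) {X : ℝ} (hX2 : 2 ≤ X) (hXp : X ^ 2 ≤ (p : ℝ)) :
    ((BadIn p (X / 2) X).card : ℝ) ≤ 9 * X ^ (2 / 5 : ℝ) * (Real.log p / Real.log X) := by
  have hX0 : 0 < X := by linarith
  have hL : 0 < Real.log X := Real.log_pos (by linarith)
  have hp1 : (1 : ℝ) < p := by exact_mod_cast hp.one_lt
  have hp0 : (0 : ℝ) < p := by linarith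
  have hLP : 2 * Real.log X ≤ Real.log p := by
    have h1 := Real.log_le_log (by positivity) hXp
    rw [Real.log_pow] at h1
    exact_mod_cast h1
  have hP : 0 < Real.log p := Real.log_pos hp1
  set R : ℝ := Real.log p / Real.log X with hR
  have hRL : R * Real.log X = Real.log p := by rw [hR]; field_simp
  have hR2 : 2 ≤ R := by
    rw [hR, le_div_iff₀ hL]
    exact hLP
  set m : ℕ := ⌊3 * R⌋₊ with hm
  have hmle : (m : ℝ) ≤ 3 * R := Nat.floor_le (by linarith)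
  have hmlt : 3 * R < (m : ℝ) + 1 := Nat.lt_floor_add_one _
  have hm1 : 1 ≤ m := by
    have h1 : (1 : ℝ) < (m : ℝ) := by linarith
    exact_mod_cast h1.le
  have hm0 : (0 : ℝ) < m := by exact_mod_cast hm1
  have hroot := card_badIn_root (m := m) hp (le_refl 1) hm1 hX2 (Or.inr rfl)
  have hXm : X ^ m ≤ (p : ℝ) ^ 3 := by
    rw [← Real.log_le_log_iff (by positivity) (by positivity), Real.log_pow, Real.log_pow]
    calc (m : ℝ) * Real.log X ≤ 3 * R * Real.log X := by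
          apply mul_le_mul_of_nonneg_right hmle hL.le
      _ = ((3 : ℕ) : ℝ) * Real.log p := by rw [mul_assoc, hRL]; norm_num
  have h1 : (p : ℝ) * (X ^ m / (p : ℝ) ^ (1 + 2) + 1) ≤ 2 * p := by
    have h2 : X ^ m / (p : ℝ) ^ (1 + 2) ≤ 1 := by
      rw [div_le_one (by positivity)]
      exact hXm
    nlinarith
  have h3 : ((p : ℝ) * (X ^ m / (p : ℝ) ^ (1 + 2) + 1)) ^ (1 / (m : ℝ)) ≤
      2 * X ^ (2 / 5 : ℝ) := by
    calc ((p : ℝ) * (X ^ m / (p : ℝ) ^ (1 + 2) + 1)) ^ (1 / (m : ℝ)) ≤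
          (2 * (p : ℝ)) ^ (1 / (m : ℝ)) :=
          Real.rpow_le_rpow (by positivity) h1 (by positivity)
      _ = 2 ^ (1 / (m : ℝ)) * (p : ℝ) ^ (1 / (m : ℝ)) := Real.mul_rpow (by norm_num) hp0.le
      _ ≤ 2 * X ^ (2 / 5 : ℝ) := by
        apply mul_le_mul _ _ (by positivity) (by norm_num)
        · calc (2 : ℝ) ^ (1 / (m : ℝ)) ≤ 2 ^ (1 : ℝ) := by
                apply Real.rpow_le_rpow_of_exponent_le (by norm_num)
                rw [div_le_one hm0]
                exact_mod_cast hm1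
            _ = 2 := Real.rpow_one _
        · rw [Real.rpow_def_of_pos hp0, Real.rpow_def_of_pos hX0, Real.exp_le_exp]
          rw [mul_one_div, div_le_iff₀ hm0, ← hRL]
          nlinarith
  have hpow : 1 ≤ X ^ (2 / 5 : ℝ) := Real.one_le_rpow (by linarith) (by norm_num)
  calc ((BadIn p (X / 2) X).card : ℝ) ≤ _ := hroot
    _ ≤ (m : ℝ) + (m : ℝ) * (2 * X ^ (2 / 5 : ℝ)) := by
      have := mul_le_mul_of_nonneg_left h3 hm0.le
      linarith
    _ ≤ (m : ℝ) * (3 * X ^ (2 / 5 : ℝ)) := by nlinarith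
    _ ≤ (3 * R) * (3 * X ^ (2 / 5 : ℝ)) := by
      apply mul_le_mul_of_nonneg_right hmle
      positivity
    _ = 9 * X ^ (2 / 5 : ℝ) * R := by ring

end Pool.Agent.H87.YA
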