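import Pool.Agent.H87.YA.M5

/-!
# Medium `X`: `p ^ (1/2) <= X <= 2 p`

PROOF: `card_badIn_root` with `j = 1` (`U = 3`), `Y = X ^ (2/5)`, `Y ^ 5 = X ^ 2`:
(1) `X ^ 3 <= p ^ 2`: `m = 5`, `X ^ 5 / p ^ 2 + p <= 2 X ^ 2 <= (2 Y) ^ 5`;
(2) `p ^ 2 < X ^ 3`, `X ^ 6 <= p ^ 5`: `m = 4`, `X ^ 4 / p ^ 2 <= Y ^ 4`, `p <= Y ^ 4`;
(3) `p ^ 5 < X ^ 6`, `X <= 2 p`: `m = 3`, `X ^ 3 / p ^ 2 + p <= 9 p`, `p <= Y ^ 3`.
-/

namespace Pool.Agent.H87.YA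

private lemma M7a_step {p m : ℕ} (hp : p.Prime) (hm : 1 ≤ m) {X Y C : ℝ} (hX2 : 2 ≤ X)
    (hY : 1 ≤ Y) (hC : 0 ≤ C) (hmC : (m : ℝ) + m * C ≤ 100)
    (h : (p : ℝ) * (X ^ m / (p : ℝ) ^ 3 + 1) ≤ (C * Y) ^ m) :
    ((BadIn p (X / 2) X).card : ℝ) ≤ 100 * Y := by
  have h1 := card_badIn_root (j := 1) (m := m) hp le_rfl hm hX2 (Or.inr rfl)
  have hm0 : m ≠ 0 := by omega
  have hCY : 0 ≤ C * Y := mul_nonneg hC (by linarith)
  have hp0 : (0 : ℝ) < p := by exact_mod_cast hp.pos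
  have h2 : ((p : ℝ) * (X ^ m / (p : ℝ) ^ 3 + 1)) ^ (1 / (m : ℝ)) ≤ C * Y := by
    calc ((p : ℝ) * (X ^ m / (p : ℝ) ^ 3 + 1)) ^ (1 / (m : ℝ))
        ≤ ((C * Y) ^ m) ^ (1 / (m : ℝ)) :=
          Real.rpow_le_rpow (by positivity) h (by positivity)
      _ = C * Y := by
          rw [one_div]
          exact Real.pow_rpow_inv_natCast hCY hm0
  have h3 : (m : ℝ) * ((p : ℝ) * (X ^ m / (p : ℝ) ^ (1 + 2) + 1)) ^ (1 / (m : ℝ))
      ≤ m * (C * Y) := mul_le_mul_of_nonneg_left h2 (by positivity)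
  have h4 : (m : ℝ) + m * (C * Y) ≤ 100 * Y := by
    have h5 : (m : ℝ) ≤ m * Y := le_mul_of_one_le_right (by positivity) hY
    have h6 : ((m : ℝ) + m * C) * Y ≤ 100 * Y := mul_le_mul_of_nonneg_right hmC (by linarith)
    nlinarith
  linarith

/-- `p ^ (1/2) <= X <= 2 p`: `U = 3` and `m = 5, 4, 3`. -/
theorem dyadic_mid {p : ℕ} (hp : p.Prime) (hp5 : 5 ≤ p) {X : ℝ} (hX2 : 2 ≤ X)
    (hXp : (p : ℝ) ≤ X ^ 2) (hX : X ≤ 2 * p) :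
    ((BadIn p (X / 2) X).card : ℝ) ≤ 100 * X ^ (2 / 5 : ℝ) := by
  have hX0 : 0 < X := by linarith
  have hp0 : (0 : ℝ) < p := by exact_mod_cast hp.pos
  set Y : ℝ := X ^ (2 / 5 : ℝ) with hYd
  have hY1 : 1 ≤ Y := Real.one_le_rpow (by linarith) (by norm_num)
  have hY0 : 0 < Y := by linarith
  have hY5 : Y ^ 5 = X ^ 2 := by
    rw [hYd, ← Real.rpow_natCast, ← Real.rpow_mul hX0.le, ← Real.rpow_natCast]
    norm_num
  have key : ∀ m : ℕ, (p : ℝ) * (X ^ m / (p : ℝ) ^ 3 + 1) = X ^ m / (p : ℝ) ^ 2 + p := by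
    intro m
    field_simp
  rcases le_or_gt (X ^ 3) ((p : ℝ) ^ 2) with c1 | c1
  · refine M7a_step (m := 5) (C := 2) hp (by norm_num) hX2 hY1 (by norm_num) (by norm_num) ?_
    rw [key, mul_pow, hY5]
    have h1 : X ^ 5 / (p : ℝ) ^ 2 ≤ X ^ 2 := by
      rw [div_le_iff₀ (by positivity)]
      calc X ^ 5 = X ^ 2 * X ^ 3 := by ring
        _ ≤ X ^ 2 * (p : ℝ) ^ 2 := mul_le_mul_of_nonneg_left c1 (by positivity)
    have h2 : 0 ≤ X ^ 2 := by positivity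
    linarith
  rcases le_or_gt (X ^ 6) ((p : ℝ) ^ 5) with c2 | c2
  · refine M7a_step (m := 4) (C := 2) hp (by norm_num) hX2 hY1 (by norm_num) (by norm_num) ?_
    rw [key, mul_pow]
    have h1 : X ^ 4 / (p : ℝ) ^ 2 ≤ Y ^ 4 := by
      refine le_of_pow_le_pow_left₀ (n := 5) (by norm_num) (by positivity) ?_
      have e1 : (Y ^ 4) ^ 5 = X ^ 8 := by
        rw [← pow_mul, mul_comm 4 5, pow_mul, hY5, ← pow_mul]
      rw [e1, div_pow, div_le_iff₀ (by positivity)]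
      have h3 : (X ^ 6) ^ 2 ≤ ((p : ℝ) ^ 5) ^ 2 := pow_le_pow_left₀ (by positivity) c2 2
      calc (X ^ 4) ^ 5 = X ^ 8 * (X ^ 6) ^ 2 := by ring
        _ ≤ X ^ 8 * ((p : ℝ) ^ 5) ^ 2 := mul_le_mul_of_nonneg_left h3 (by positivity)
        _ = X ^ 8 * ((p : ℝ) ^ 2) ^ 5 := by ring
    have h2 : (p : ℝ) ≤ Y ^ 4 := by
      refine le_of_pow_le_pow_left₀ (n := 10) (by norm_num) (by positivity) ?_
      have e1 : (Y ^ 4) ^ 10 = X ^ 16 := by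
        rw [← pow_mul, show 4 * 10 = 5 * 8 by norm_num, pow_mul, hY5, ← pow_mul]
      rw [e1]
      have h3 : ((p : ℝ) ^ 2) ^ 5 ≤ (X ^ 3) ^ 5 := pow_le_pow_left₀ (by positivity) c1.le 5
      calc (p : ℝ) ^ 10 = ((p : ℝ) ^ 2) ^ 5 := by ring
        _ ≤ (X ^ 3) ^ 5 := h3
        _ = X ^ 15 := by ring
        _ ≤ X ^ 16 := pow_le_pow_right₀ (by linarith) (by norm_num)
    have h4 : 0 ≤ Y ^ 4 := by positivity
    linarith
  · refine M7a_step (m := 3) (C := 3) hp (by norm_num) hX2 hY1 (by norm_num) (by norm_num) ?_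
    rw [key, mul_pow]
    have h1 : X ^ 3 / (p : ℝ) ^ 2 ≤ 8 * p := by
      rw [div_le_iff₀ (by positivity)]
      have h3 : X ^ 3 ≤ (2 * (p : ℝ)) ^ 3 := pow_le_pow_left₀ hX0.le hX 3
      calc X ^ 3 ≤ (2 * (p : ℝ)) ^ 3 := h3
        _ = 8 * p * (p : ℝ) ^ 2 := by ring
    have h2 : (p : ℝ) ≤ Y ^ 3 := by
      refine le_of_pow_le_pow_left₀ (n := 5) (by norm_num) (by positivity) ?_
      have e1 : (Y ^ 3) ^ 5 = X ^ 6 := by
        rw [← pow_mul, mul_comm 3 5, pow_mul, hY5, ← pow_mul]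
      rw [e1]
      exact c2.le
    have h4 : 0 ≤ Y ^ 3 := by positivity
    linarith

end Pool.Agent.H87.YA
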