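import Pool.Agent.H87.YA.M5

/-!
# Medium `X`: `2 p <= X <= p ^ (5/2)`

PROOF: (a) `X <= 2 p ^ 2`, `X ^ 3 <= p ^ 4`: `card_badIn_root` with `j = 2` (`U = 4`,
`p ^ 1 <= X / 2`), `m = 3`: bound `3 + 3 (2 p) ^ (1/3)`, `p ^ (1/3) <= X ^ (1/3)`;
(b) `X <= 2 p ^ 2`, `p ^ 4 < X ^ 3`: `j = 2`, `m = 2`, `X ^ 2 / p ^ 4 <= 4`: bound
`2 + 2 (5 p) ^ (1/2)`, `p ^ (1/2) <= X ^ (3/8) <= X ^ (2/5)`;
(c) `X > 2 p ^ 2`: `j = 3` (`U = 5`, `p ^ 2 <= X / 2`), `m = 2`, `X ^ 2 <= p ^ 5`: bound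
`2 + 2 (2 p) ^ (1/2)`, `p ^ (1/2) <= X ^ (1/4)`.
-/

namespace Pool.Agent.H87.YA

private theorem rpow_le_of_le_pow {A B : ℝ} {m : ℕ} (hm : m ≠ 0) (hA : 0 ≤ A) (hB : 0 ≤ B)
    (h : A ≤ B ^ m) : A ^ (1 / (m : ℝ)) ≤ B := by
  have h1 : A ^ (1 / (m : ℝ)) ≤ (B ^ m) ^ (1 / (m : ℝ)) :=
    Real.rpow_le_rpow hA h (by positivity)
  rw [one_div, Real.pow_rpow_inv_natCast hB hm] at h1
  rw [one_div]
  exact h1

/-- `2 p <= X <= p ^ (5/2)`: `U = 4` and `m = 3, 2`, or `U = 5` and `m = 2`. -/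
theorem dyadic_large {p : ℕ} (hp : p.Prime) (hp5 : 5 ≤ p) {X : ℝ}
    (hXp : 2 * (p : ℝ) ≤ X) (hX : X ≤ (p : ℝ) ^ (5 / 2 : ℝ)) :
    ((BadIn p (X / 2) X).card : ℝ) ≤ 100 * X ^ (2 / 5 : ℝ) := by
  have hP5 : (5 : ℝ) ≤ (p : ℝ) := by exact_mod_cast hp5
  have hP0 : (0 : ℝ) < (p : ℝ) := by linarith
  have hX1 : 1 ≤ X := by linarith
  have hX0 : 0 < X := by linarith
  set Z : ℝ := X ^ (2 / 5 : ℝ) with hZ
  have hZ1 : 1 ≤ Z := Real.one_le_rpow hX1 (by norm_num)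
  have hZ0 : 0 < Z := by linarith
  have hZ5 : Z ^ 5 = X ^ 2 := by
    rw [hZ, ← Real.rpow_natCast, ← Real.rpow_mul hX0.le, ← Real.rpow_natCast]
    norm_num
  -- `X ≤ Z ^ 3`
  have hXZ : X ≤ Z ^ 3 := by
    refine le_of_pow_le_pow_left₀ (n := 5) (by norm_num) (by positivity) ?_
    calc X ^ 5 ≤ X ^ 6 := pow_le_pow_right₀ hX1 (by norm_num)
      _ = (X ^ 2) ^ 3 := by ring
      _ = (Z ^ 5) ^ 3 := by rw [hZ5]
      _ = (Z ^ 3) ^ 5 := by ring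
  have hPs : X ^ 2 ≤ (p : ℝ) ^ 5 := by
    have h1 : X ^ 2 ≤ ((p : ℝ) ^ (5 / 2 : ℝ)) ^ 2 := pow_le_pow_left₀ hX0.le hX 2
    have h2 : ((p : ℝ) ^ (5 / 2 : ℝ)) ^ 2 = (p : ℝ) ^ 5 := by
      rw [← Real.rpow_natCast, ← Real.rpow_mul hP0.le, ← Real.rpow_natCast]
      norm_num
    rwa [h2] at h1
  rcases le_or_gt X (2 * (p : ℝ) ^ 2) with hc | hc
  · rcases le_or_gt (X ^ 3) ((p : ℝ) ^ 4) with hd | hd
    · -- (a)
      have h1 := card_badIn_root (p := p) (j := 2) (m := 3) hp (by norm_num) (by norm_num)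
        (X := X) (by linarith) (Or.inl (by norm_num; linarith))
      have h2 : X ^ 3 / (p : ℝ) ^ (2 + 2) ≤ 1 := by
        rw [div_le_one (by positivity)]
        exact hd
      have h3 : ((p : ℝ) * (X ^ 3 / (p : ℝ) ^ (2 + 2) + 1)) ^ (1 / ((3 : ℕ) : ℝ)) ≤ Z := by
        refine rpow_le_of_le_pow (by norm_num) (by positivity) hZ0.le ?_
        nlinarith
      push_cast at h1 h3
      nlinarith
    · -- (b)
      have h1 := card_badIn_root (p := p) (j := 2) (m := 2) hp (by norm_num) (by norm_num)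
        (X := X) (by linarith) (Or.inl (by norm_num; linarith))
      have h2 : X ^ 2 / (p : ℝ) ^ (2 + 2) ≤ 4 := by
        rw [div_le_iff₀ (by positivity)]
        have h5 := pow_le_pow_left₀ hX0.le hc 2
        have h6 : (2 * (p : ℝ) ^ 2) ^ 2 = 4 * (p : ℝ) ^ (2 + 2) := by ring
        rw [h6] at h5
        exact h5
      have hPZ : (p : ℝ) ≤ Z ^ 2 := by
        refine le_of_pow_le_pow_left₀ (n := 20) (by norm_num) (by positivity) ?_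
        calc (p : ℝ) ^ 20 = ((p : ℝ) ^ 4) ^ 5 := by ring
          _ ≤ (X ^ 3) ^ 5 := pow_le_pow_left₀ (by positivity) hd.le 5
          _ = X ^ 15 := by ring
          _ ≤ X ^ 16 := pow_le_pow_right₀ hX1 (by norm_num)
          _ = (X ^ 2) ^ 8 := by ring
          _ = (Z ^ 5) ^ 8 := by rw [hZ5]
          _ = (Z ^ 2) ^ 20 := by ring
      have h3 : ((p : ℝ) * (X ^ 2 / (p : ℝ) ^ (2 + 2) + 1)) ^ (1 / ((2 : ℕ) : ℝ)) ≤ 3 * Z := by
        refine rpow_le_of_le_pow (by norm_num) (by positivity) (by positivity) ?_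
        have : (p : ℝ) * (X ^ 2 / (p : ℝ) ^ (2 + 2) + 1) ≤ (p : ℝ) * 5 :=
          mul_le_mul_of_nonneg_left (by linarith) hP0.le
        nlinarith
      push_cast at h1 h3
      nlinarith
  · -- (c)
    have h1 := card_badIn_root (p := p) (j := 3) (m := 2) hp (by norm_num) (by norm_num)
      (X := X) (by linarith) (Or.inl (by norm_num; linarith))
    have h2 : X ^ 2 / (p : ℝ) ^ (3 + 2) ≤ 1 := by
      rw [div_le_one (by positivity)]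
      exact hPs
    have hPZ : (p : ℝ) ≤ Z ^ 2 := by
      refine le_of_pow_le_pow_left₀ (n := 10) (by norm_num) (by positivity) ?_
      calc (p : ℝ) ^ 10 = ((p : ℝ) ^ 2) ^ 5 := by ring
        _ ≤ X ^ 5 := pow_le_pow_left₀ (by positivity) (by nlinarith) 5
        _ ≤ X ^ 8 := pow_le_pow_right₀ hX1 (by norm_num)
        _ = (X ^ 2) ^ 4 := by ring
        _ = (Z ^ 5) ^ 4 := by rw [hZ5]
        _ = (Z ^ 2) ^ 10 := by ring
    have h3 : ((p : ℝ) * (X ^ 2 / (p : ℝ) ^ (3 + 2) + 1)) ^ (1 / ((2 : ℕ) : ℝ)) ≤ 2 * Z := by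
      refine rpow_le_of_le_pow (by norm_num) (by positivity) (by positivity) ?_
      have : (p : ℝ) * (X ^ 2 / (p : ℝ) ^ (3 + 2) + 1) ≤ (p : ℝ) * 2 :=
        mul_le_mul_of_nonneg_left (by linarith) hP0.le
      nlinarith
    push_cast at h1 h3
    nlinarith

end Pool.Agent.H87.YA
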