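import Pool.Agent.H87.YA.Defs

/-!
# Summing over dyadic intervals

PROOF: strong induction (e.g. on `n` with `x <= 2 ^ n`).  `F x = x ^ (2/5) (1 + log p / log x) >= 1`.
For `x < 32` the cardinality is at most `32`.  For `x >= 32`:
`BadIn p 0 x ⊆ BadIn p 0 (x / 2) ∪ BadIn p (x / 2) x`, so the cardinality is at most
`2000 F (x / 2) + 100 F x`, and `F (x / 2) / F x <= 2 ^ (-2/5) * log x / (log x - log 2) <=
0.758 * 5 / 4 < 0.95` (as `log x >= 5 log 2`), and `2000 * 0.95 + 100 = 2000`.
-/

namespace Pool.Agent.H87.YA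

private lemma M8_card_le (p : ℕ) {x : ℝ} (hx : 0 ≤ x) :
    ((BadIn p 0 x).card : ℝ) ≤ x + 1 := by
  classical
  have h1 : (BadIn p 0 x).card ≤ ⌊x⌋₊ + 1 := by
    have h2 : BadIn p 0 x ⊆ Finset.range (⌊x⌋₊ + 1) := by
      intro q hq
      unfold BadIn at hq
      exact (Finset.mem_filter.1 hq).1
    have h3 := Finset.card_le_card h2
    rwa [Finset.card_range] at h3
  have h4 : ((⌊x⌋₊ : ℕ) : ℝ) ≤ x := Nat.floor_le hx
  have h5 : ((BadIn p 0 x).card : ℝ) ≤ ((⌊x⌋₊ + 1 : ℕ) : ℝ) := by exact_mod_cast h1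
  push_cast at h5
  linarith

private lemma M8_split (p : ℕ) (x : ℝ) :
    (BadIn p 0 x).card ≤ (BadIn p 0 (x / 2)).card + (BadIn p (x / 2) x).card := by
  classical
  have h2 : BadIn p 0 x ⊆ BadIn p 0 (x / 2) ∪ BadIn p (x / 2) x := by
    intro q hq
    unfold BadIn at hq ⊢
    rw [Finset.mem_filter, Finset.mem_range] at hq
    rw [Finset.mem_union, Finset.mem_filter, Finset.mem_filter, Finset.mem_range,
      Finset.mem_range]
    by_cases h : x / 2 < (q : ℝ)
    · exact Or.inr ⟨hq.1, hq.2.1, hq.2.2.1, h⟩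
    · refine Or.inl ⟨?_, hq.2.1, hq.2.2.1, hq.2.2.2⟩
      rw [Nat.lt_succ_iff]
      exact Nat.le_floor (not_lt.1 h)
  exact (Finset.card_le_card h2).trans (Finset.card_union_le _ _)

private lemma M8_two : (25 / 19 : ℝ) ≤ (2 : ℝ) ^ (2 / 5 : ℝ) := by
  have h1 : ((25 / 19 : ℝ) ^ (5 : ℕ)) ≤ 4 := by norm_num
  have h2 : (25 / 19 : ℝ) = ((25 / 19 : ℝ) ^ (5 : ℕ)) ^ (1 / 5 : ℝ) := by
    rw [← Real.rpow_natCast, ← Real.rpow_mul (by norm_num)]
    norm_num
  have h3 : (2 : ℝ) ^ (2 / 5 : ℝ) = (4 : ℝ) ^ (1 / 5 : ℝ) := by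
    have : (4 : ℝ) = (2 : ℝ) ^ (2 : ℝ) := by norm_num
    rw [this, ← Real.rpow_mul (by norm_num)]
    norm_num
  rw [h2, h3]
  exact Real.rpow_le_rpow (by norm_num) h1 (by norm_num)

/-- From the bounds in dyadic intervals to the bound up to `x`. -/
theorem card_bad_small {p : ℕ} (hp : 5 ≤ p) {Y : ℝ}
    (hdy : ∀ X : ℝ, 2 ≤ X → X ≤ Y → ((BadIn p (X / 2) X).card : ℝ) ≤
      100 * X ^ (2 / 5 : ℝ) * (1 + Real.log p / Real.log X)) :
    ∀ x : ℝ, 2 ≤ x → x ≤ Y → ((BadIn p 0 x).card : ℝ) ≤
      2000 * x ^ (2 / 5 : ℝ) * (1 + Real.log p / Real.log x) := by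
  have hP : 0 < Real.log p := Real.log_pos (by exact_mod_cast (by omega : 1 < p))
  have key : ∀ n : ℕ, ∀ x : ℝ, 2 ≤ x → x ≤ Y → x ≤ 2 ^ n → ((BadIn p 0 x).card : ℝ) ≤
      2000 * x ^ (2 / 5 : ℝ) * (1 + Real.log p / Real.log x) := by
    intro n
    induction n with
    | zero =>
      intro x hx _ h
      rw [pow_zero] at h
      linarith
    | succ n ih =>
      intro x hx hxY hxn
      have hx0 : 0 < x := by linarith
      have hL : 0 < Real.log x := Real.log_pos (by linarith)
      have hpow : 1 ≤ x ^ (2 / 5 : ℝ) := Real.one_le_rpow (by linarith) (by norm_num)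
      have hF : 1 ≤ 1 + Real.log p / Real.log x := by
        have := div_nonneg hP.le hL.le
        linarith
      by_cases h32 : x < 32
      · have h1 := M8_card_le p hx0.le
        have h2 : 1 ≤ x ^ (2 / 5 : ℝ) * (1 + Real.log p / Real.log x) := one_le_mul_of_one_le_of_one_le hpow hF
        nlinarith
      · rw [not_lt] at h32
        have h1 := M8_split p x
        have h1' : ((BadIn p 0 x).card : ℝ) ≤ ((BadIn p 0 (x / 2)).card : ℝ) +
            ((BadIn p (x / 2) x).card : ℝ) := by exact_mod_cast h1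
        have h2 := ih (x / 2) (by linarith) (by linarith) (by rw [pow_succ] at hxn; linarith)
        have h3 := hdy x hx hxY
        have hl2 : 0 < Real.log 2 := Real.log_pos (by norm_num)
        have h5 : 5 * Real.log 2 ≤ Real.log x := by
          have h6 : Real.log ((2 : ℝ) ^ 5) = 5 * Real.log 2 := by
            rw [Real.log_pow]; norm_num
          rw [← h6]
          exact Real.log_le_log (by norm_num) (by norm_num; linarith)
        have h7 : Real.log (x / 2) = Real.log x - Real.log 2 :=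
          Real.log_div hx0.ne' (by norm_num)
        have h8 : 4 / 5 * Real.log x ≤ Real.log (x / 2) := by rw [h7]; linarith
        have h9 : Real.log p / Real.log (x / 2) ≤ 5 / 4 * (Real.log p / Real.log x) := by
          have h10 : 0 < Real.log (x / 2) := by linarith
          rw [div_le_iff₀ h10]
          have h11 : Real.log p = (Real.log p / Real.log x) * Real.log x := by
            field_simp
          have h12 : 0 ≤ Real.log p / Real.log x := div_nonneg hP.le hL.le
          nlinarith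
        have h13 : (x / 2) ^ (2 / 5 : ℝ) ≤ 19 / 25 * x ^ (2 / 5 : ℝ) := by
          rw [Real.div_rpow hx0.le (by norm_num), div_le_iff₀ (by positivity)]
          have := M8_two
          nlinarith
        have h14 : 0 ≤ (x / 2) ^ (2 / 5 : ℝ) := by positivity
        have h15 : (x / 2) ^ (2 / 5 : ℝ) * (1 + Real.log p / Real.log (x / 2)) ≤
            (19 / 25 * x ^ (2 / 5 : ℝ)) * (5 / 4 * (1 + Real.log p / Real.log x)) := by
          apply mul_le_mul h13 _ _ (by positivity)
          · linarith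
          · have h16 : 0 ≤ Real.log p / Real.log (x / 2) := by
              apply div_nonneg hP.le
              linarith
            linarith
        calc ((BadIn p 0 x).card : ℝ) ≤ _ := h1'
          _ ≤ 2000 * ((x / 2) ^ (2 / 5 : ℝ) * (1 + Real.log p / Real.log (x / 2))) +
              100 * (x ^ (2 / 5 : ℝ) * (1 + Real.log p / Real.log x)) := by
            linarith
          _ ≤ 2000 * x ^ (2 / 5 : ℝ) * (1 + Real.log p / Real.log x) := by
            linarith
  intro x hx hxY
  obtain ⟨n, hn⟩ := pow_unbounded_of_one_lt x (by norm_num : (1 : ℝ) < 2)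
  exact key n x hx hxY hn.le

end Pool.Agent.H87.YA
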