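import Pool.Agent.H87.YA.M1
import Pool.Agent.H87.YA.M4
import Pool.Agent.H87.YA.M6
import Pool.Agent.H87.YA.M7a
import Pool.Agent.H87.YA.M7b
import Pool.Agent.H87.YA.M8

/-!
# The uniform bound
-/

namespace Pool.Agent.H87.YA

theorem mem_badIn {p : ℕ} {y x : ℝ} (hx : 0 ≤ x) {q : ℕ} :
    q ∈ BadIn p y x ↔ (q : ℝ) ≤ x ∧ q.Prime ∧ Bad p q ∧ y < (q : ℝ) := by
  classical
  unfold BadIn
  rw [Finset.mem_filter, Finset.mem_range, Nat.lt_succ_iff, Nat.le_floor_iff hx]

theorem exc_subset {p : ℕ} (hp : p.Prime) {x : ℝ} (hx : 0 ≤ x) :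
    Exc p x ⊆ (BadIn p 0 x : Set ℕ) := by
  intro q hq
  obtain ⟨hq1, hq2, hq3⟩ := hq
  have := bad_of_not_holds hp hq1 hq3
  rw [Finset.mem_coe, mem_badIn hx]
  exact ⟨hq2, hq1, this.2, by exact_mod_cast hq1.pos⟩

theorem exc_empty {p : ℕ} (hp : p.Prime) (hp5 : p < 5) {x : ℝ} : Exc p x = ∅ := by
  ext q
  simp only [Set.mem_empty_iff_false, iff_false]
  rintro ⟨hq1, hq2, hq3⟩
  have := (bad_of_not_holds hp hq1 hq3).1
  omega

theorem sum_inv_ge {a : ℝ} (ha : 0 < a) : 2 ≤ a + 1 / a := by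
  have h : a + 1 / a - 2 = (a - 1) ^ 2 / a := by field_simp; ring
  have h2 : 0 ≤ (a - 1) ^ 2 / a := by positivity
  linarith

theorem main : ∃ C : ℝ, 0 < C ∧ ∀ p : ℕ, p.Prime → ∀ x : ℝ, 2 ≤ x →
    (Exc p x).Finite ∧ ((Exc p x).ncard : ℝ) ≤ C * min (x ^ (2 / 5 : ℝ)) (p : ℝ) *
      (Real.log x / Real.log p + Real.log p / Real.log x) := by
  refine ⟨4000, by norm_num, ?_⟩
  intro p hp x hx
  have hx0 : 0 ≤ x := by linarith
  have hfin : (Exc p x).Finite := (BadIn p 0 x).finite_toSet.subset (exc_subset hp hx0)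
  refine ⟨hfin, ?_⟩
  have hp2 : (2 : ℝ) ≤ p := by exact_mod_cast hp.two_le
  have hlx : 0 < Real.log x := Real.log_pos (by linarith)
  have hlp : 0 < Real.log p := Real.log_pos (by linarith)
  have hRHS : 0 ≤ 4000 * min (x ^ (2 / 5 : ℝ)) (p : ℝ) *
      (Real.log x / Real.log p + Real.log p / Real.log x) := by positivity
  rcases lt_or_ge p 5 with h5 | h5
  · rw [exc_empty hp h5]
    simpa using hRHS
  have hcard : ((Exc p x).ncard : ℝ) ≤ ((BadIn p 0 x).card : ℝ) := by
    have := Set.ncard_le_ncard (exc_subset hp hx0) (BadIn p 0 x).finite_toSet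
    rw [Set.ncard_coe_finset] at this
    exact_mod_cast this
  refine hcard.trans ?_
  set a : ℝ := Real.log x / Real.log p with ha
  have ha0 : 0 < a := by positivity
  have hinv : Real.log p / Real.log x = 1 / a := by
    rw [ha]; field_simp
  rw [hinv]
  have hsum := sum_inv_ge ha0
  have hinv0 : 0 < 1 / a := by positivity
  rcases le_or_gt x ((p : ℝ) ^ (5 / 2 : ℝ)) with hxp | hxp
  · -- small x
    have hdy : ∀ X : ℝ, 2 ≤ X → X ≤ x → ((BadIn p (X / 2) X).card : ℝ) ≤
      100 * X ^ (2 / 5 : ℝ) * (1 + Real.log p / Real.log X) := by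
      intro X hX2 hXx
      have hlX : 0 < Real.log X := Real.log_pos (by linarith)
      have hr : 0 < Real.log p / Real.log X := by positivity
      have hF : 0 < X ^ (2 / 5 : ℝ) := by positivity
      rcases le_or_gt (X ^ 2) (p : ℝ) with h1 | h1
      · refine (dyadic_small hp hX2 h1).trans ?_
        nlinarith [mul_pos hF hr]
      · rcases le_or_gt X (2 * p) with h2 | h2
        · refine (dyadic_mid hp h5 hX2 h1.le h2).trans ?_
          nlinarith [mul_pos hF hr]
        · refine (dyadic_large hp h5 h2.le (hXx.trans hxp)).trans ?_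
          nlinarith [mul_pos hF hr]
    have h := card_bad_small h5 hdy x hx le_rfl
    rw [hinv] at h
    have hmin : min (x ^ (2 / 5 : ℝ)) (p : ℝ) = x ^ (2 / 5 : ℝ) := by
      apply min_eq_left
      calc x ^ (2 / 5 : ℝ) ≤ ((p : ℝ) ^ (5 / 2 : ℝ)) ^ (2 / 5 : ℝ) :=
            Real.rpow_le_rpow hx0 hxp (by norm_num)
        _ = p := by
            rw [← Real.rpow_mul (by positivity)]
            norm_num
    rw [hmin]
    refine h.trans ?_
    have hF : 0 < x ^ (2 / 5 : ℝ) := by positivity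
    nlinarith [mul_pos hF ha0, mul_pos hF hinv0]
  · -- large x
    have h := card_bad_large hp (x := x) (by linarith)
    have hmin : min (x ^ (2 / 5 : ℝ)) (p : ℝ) = p := by
      apply min_eq_right
      calc (p : ℝ) = ((p : ℝ) ^ (5 / 2 : ℝ)) ^ (2 / 5 : ℝ) := by
            rw [← Real.rpow_mul (by positivity)]
            norm_num
        _ ≤ x ^ (2 / 5 : ℝ) := Real.rpow_le_rpow (by positivity) hxp.le (by norm_num)
    rw [hmin]
    refine h.trans ?_
    rw [← ha]
    have hp0 : (0 : ℝ) < p := by linarith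
    nlinarith [mul_pos hp0 ha0, mul_pos hp0 hinv0]

end Pool.Agent.H87.YA
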