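import Pool.Agent.H87.YA.Defs

/-!
# Violations are bad primes

PROOF. `u = padicValNat p (q ^ (p - 1) - 1)`, `p ^ u` divides `q ^ (p - 1) - 1` (which is nonzero,
`pow_padicValNat_dvd`).  `p = 2`: `q = 2` gives `u = 0` (value `q - 1 = 1`) and for `q >= 3`,
`2 ^ u <= q - 1`; `p = 3`: `q = 3` gives `u = 0`; otherwise `3` divides exactly one of `q - 1, q + 1`
so `3 ^ u <= q + 1 <= (3 / 2) q`; in both cases `Holds` follows, because
`2 log p + log log q + log log p - log (3/2) > 0` (numerical bounds of `log 2`, `log 3`; note that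
`log log 2` is negative, about `-0.367`: use `log x >= 1 - 1/x`, i.e. `Real.one_sub_inv_le_log_of_pos`).
`p >= 5`: if the second inequality fails then `(u - 2) log p > log q`, so `u >= 3` and
`q < p ^ (u - 2)` (take exponentials).  If the first fails then `(u - 2) log p >
log q + log (log q) + log (log p) = log q + log (log q * log p) > log q`, since
`log q * log p >= log 2 * log 5 > 1` (`log 2 > 0.6931`, `log 5 > 1.6`, e.g. `5 ^ 3 > 2 ^ 6 `...:
`log 5 >= 2 log 2 + 1 - 4/5`).  So again the second inequality fails.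
-/

namespace Pool.Agent.H87.YA

private theorem M1_small {q : ℕ} (hq : q.Prime) {p : ℕ} (hp : p = 2 ∨ p = 3) :
    ((p ^ padicValNat p (q ^ (p - 1) - 1) : ℕ) : ℝ) ≤ 3 / 2 * (q : ℝ) := by
  have hq2 : 2 ≤ q := hq.two_le
  have hqr : (2 : ℝ) ≤ q := by exact_mod_cast hq2
  have key : p ^ padicValNat p (q ^ (p - 1) - 1) ≤ q + 1 := by
    rcases hp with rfl | rfl
    · have h1 : 2 ^ padicValNat 2 (q ^ (2 - 1) - 1) ∣ q ^ (2 - 1) - 1 := pow_padicValNat_dvd
      have h2 := Nat.le_of_dvd (by simp; omega) h1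
      simp only [Nat.add_one_sub_one, pow_one] at h2 ⊢
      omega
    · have h1 : 3 ^ padicValNat 3 (q ^ (3 - 1) - 1) ∣ q ^ (3 - 1) - 1 := pow_padicValNat_dvd
      generalize padicValNat 3 (q ^ (3 - 1) - 1) = u at h1 ⊢
      have h2 : q ^ (3 - 1) - 1 = (q + 1) * (q - 1) := by
        have h3 := Nat.sq_sub_sq q 1
        simpa using h3
      rw [h2] at h1
      by_cases h3 : 3 ∣ q - 1
      · have h4 : ¬ 3 ∣ q + 1 := by omega
        have h5 : Nat.Coprime (3 ^ u) (q + 1) :=
          Nat.Coprime.pow_left u ((Nat.Prime.coprime_iff_not_dvd Nat.prime_three).2 h4)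
        have h6 := Nat.le_of_dvd (by omega) (h5.dvd_of_dvd_mul_left h1)
        omega
      · have h5 : Nat.Coprime (3 ^ u) (q - 1) :=
          Nat.Coprime.pow_left u ((Nat.Prime.coprime_iff_not_dvd Nat.prime_three).2 h3)
        exact Nat.le_of_dvd (by omega) (h5.dvd_of_dvd_mul_right h1)
  have h1 : ((p ^ padicValNat p (q ^ (p - 1) - 1) : ℕ) : ℝ) ≤ (q : ℝ) + 1 := by
    exact_mod_cast key
  linarith

private theorem M1_loglog {x : ℝ} (hx : 2 ≤ x) : -0.4428 ≤ Real.log (Real.log x) := by
  have h2 : (0.6931 : ℝ) < Real.log 2 := by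
    have := Real.log_two_gt_d9
    linarith
  have h3 : Real.log 2 ≤ Real.log x := Real.log_le_log (by norm_num) hx
  have h4 : 0 < Real.log x := by linarith
  have h5 := Real.one_sub_inv_le_log_of_pos h4
  have h6 : (Real.log x)⁻¹ ≤ (0.6931 : ℝ)⁻¹ := inv_anti₀ (by norm_num) (by linarith)
  have h7 : (0.6931 : ℝ)⁻¹ ≤ 1.4428 := by norm_num
  linarith

private theorem M1_holds {q : ℕ} (hq : q.Prime) {p : ℕ} (hp : p = 2 ∨ p = 3) : Holds p q := by
  have h1 := M1_small hq hp
  have hq2 : (2 : ℝ) ≤ q := by exact_mod_cast hq.two_le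
  have hp2 : (2 : ℝ) ≤ p := by
    rcases hp with rfl | rfl <;> norm_num
  have h2 : (0.6931 : ℝ) < Real.log 2 := by
    have := Real.log_two_gt_d9
    linarith
  have hlp : Real.log 2 ≤ Real.log p := Real.log_le_log (by norm_num) hp2
  have hlp0 : 0 < Real.log p := by linarith
  have l1 := M1_loglog hq2
  have l2 := M1_loglog hp2
  have h3 : ((padicValNat p (q ^ (p - 1) - 1) : ℕ) : ℝ) * Real.log p ≤
      Real.log (3 / 2) + Real.log q := by
    rw [← Real.log_mul (by norm_num) (by linarith), ← Real.log_pow]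
    apply Real.log_le_log (by positivity)
    rw [← Nat.cast_pow]
    exact h1
  have h4 : Real.log (3 / 2) ≤ 1 / 2 := by
    have := Real.log_le_sub_one_of_pos (show (0 : ℝ) < 3 / 2 by norm_num)
    linarith
  constructor
  · rw [← sub_le_iff_le_add', le_div_iff₀ hlp0]
    rw [sub_mul]
    linarith
  · rw [← sub_le_iff_le_add', le_div_iff₀ hlp0]
    rw [sub_mul]
    linarith

/-- There are no exceptions for `p = 2, 3`, and for `p >= 5` every exception is a bad prime. -/
theorem bad_of_not_holds {p q : ℕ} (hp : p.Prime) (hq : q.Prime) (h : ¬ Holds p q) :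
    5 ≤ p ∧ Bad p q := by
  have hp5 : 5 ≤ p := by
    by_contra hlt
    have h2 := hp.two_le
    have h4 : p ≠ 4 := by
      rintro rfl
      revert hp
      decide
    exact h (M1_holds hq (by omega))
  refine ⟨hp5, padicValNat p (q ^ (p - 1) - 1), pow_padicValNat_dvd, ?_⟩
  generalize hu : padicValNat p (q ^ (p - 1) - 1) = u
  have hq2 : (2 : ℝ) ≤ q := by exact_mod_cast hq.two_le
  have hp5r : (5 : ℝ) ≤ p := by exact_mod_cast hp5
  have h2 : (0.6931 : ℝ) < Real.log 2 := by
    have := Real.log_two_gt_d9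
    linarith
  have hlq : Real.log 2 ≤ Real.log q := Real.log_le_log (by norm_num) hq2
  have hl5 : 2 * Real.log 2 + (1 - 4 / 5) ≤ Real.log 5 := by
    have e : Real.log 5 = 2 * Real.log 2 + Real.log (5 / 4) := by
      rw [show (5 : ℝ) = 2 ^ 2 * (5 / 4) by norm_num, Real.log_mul (by norm_num) (by norm_num),
        Real.log_pow]
      norm_num
    have h3 := Real.one_sub_inv_le_log_of_pos (show (0 : ℝ) < 5 / 4 by norm_num)
    rw [e]
    have h4 : ((5 : ℝ) / 4)⁻¹ = 4 / 5 := by norm_num
    linarith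
  have hlp : Real.log 5 ≤ Real.log p := Real.log_le_log (by norm_num) hp5r
  have hlp0 : 0 < Real.log p := by linarith
  have hlq0 : 0 < Real.log q := by linarith
  have hll : 0 ≤ Real.log (Real.log q) + Real.log (Real.log p) := by
    rw [← Real.log_mul hlq0.ne' hlp0.ne']
    apply Real.log_nonneg
    have a1 : (1.5862 : ℝ) ≤ Real.log p := by linarith
    have a2 : (0.6931 : ℝ) ≤ Real.log q := by linarith
    nlinarith
  have key : Real.log q < ((u : ℝ) - 2) * Real.log p := by
    unfold Holds at h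
    rw [hu] at h
    rw [not_and_or, not_le, not_le] at h
    rcases h with h | h
    · rw [← lt_sub_iff_add_lt', div_lt_iff₀ hlp0] at h
      linarith
    · rw [← lt_sub_iff_add_lt', div_lt_iff₀ hlp0] at h
      exact h
  have hu2 : (0 : ℝ) < (u : ℝ) - 2 := by
    by_contra hc
    have : ((u : ℝ) - 2) * Real.log p ≤ 0 := mul_nonpos_of_nonpos_of_nonneg (by linarith) hlp0.le
    linarith
  have hu3 : 2 < u := by
    have : (2 : ℝ) < u := by linarith
    exact_mod_cast this
  have e1 : ((u - 2 : ℕ) : ℝ) = (u : ℝ) - 2 := by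
    rw [Nat.cast_sub hu3.le]
    norm_num
  rw [← e1, ← Real.log_pow] at key
  have h5 := (Real.log_lt_log_iff (by linarith) (by positivity)).1 key
  exact_mod_cast h5

end Pool.Agent.H87.YA
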