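import Pool.Agent.H87.YA.Defs

/-!
# Counting the solutions of `n ^ (p - 1) = 1` modulo `p ^ U`

PROOF of `modEq_pow`: let `a >= b` w.l.o.g. (or work in `Int`): `p ^ U` divides
`a ^ (p - 1) - b ^ (p - 1) = (a - b) * S`, `S = sum_{i < p - 1} a ^ i b ^ (p - 2 - i)`
(`Commute.geom_sum₂_mul` / `sub_dvd_pow_sub_pow`), and `S = (p - 1) a ^ (p - 2)` modulo `p`, which is
prime to `p` (`p` does not divide `a` because `p` divides `a ^ (p - 1) - 1`).  So `p ^ U` divides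
`a - b` (`IsCoprime.dvd_of_dvd_mul_right`).
PROOF of `card_solutions`: the map `n -> (n mod p - 1, n / p ^ U)` from `s` to
`range (p - 1) ×ˢ range (N / p ^ U + 1)` is injective by `modEq_pow` (same class modulo `p` gives the
same residue modulo `p ^ U`, and `n = p ^ U * (n / p ^ U) + n % p ^ U`).
-/

namespace Pool.Agent.H87.YA

private theorem M2_not_dvd {p U a : ℕ} (hp : p.Prime) (hU : 1 ≤ U) (ha : p ^ U ∣ a ^ (p - 1) - 1)
    (ha0 : 1 ≤ a) : ¬ p ∣ a := by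
  intro h
  have h1 : p ∣ a ^ (p - 1) - 1 := (dvd_pow_self p (by omega)).trans ha
  have h2 : p ∣ a ^ (p - 1) := h.trans (dvd_pow_self a (by have := hp.two_le; omega))
  have h3 : 1 ≤ a ^ (p - 1) := Nat.one_le_pow _ _ ha0
  have h4 : p ∣ 1 := by
    have h5 := (Nat.dvd_sub h2 h1)
    have h6 : a ^ (p - 1) - (a ^ (p - 1) - 1) = 1 := by omega
    rwa [h6] at h5
  exact hp.one_lt.ne' (Nat.dvd_one.mp h4)

/-- Two solutions which agree modulo `p` agree modulo `p ^ U`. -/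
theorem modEq_pow {p U a b : ℕ} (hp : p.Prime) (hU : 1 ≤ U) (ha : p ^ U ∣ a ^ (p - 1) - 1)
    (ha0 : 1 ≤ a) (hb : p ^ U ∣ b ^ (p - 1) - 1) (hb0 : 1 ≤ b) (hab : a ≡ b [MOD p]) :
    a ≡ b [MOD p ^ U] := by
  have hpa := M2_not_dvd hp hU ha ha0
  have : Fact p.Prime := ⟨hp⟩
  have hca : ((p : ℤ) ^ U) ∣ (a : ℤ) ^ (p - 1) - 1 := by
    have h1 : ((p ^ U : ℕ) : ℤ) ∣ ((a ^ (p - 1) - 1 : ℕ) : ℤ) := Int.natCast_dvd_natCast.mpr ha
    rw [Nat.cast_sub (Nat.one_le_pow _ _ ha0)] at h1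
    push_cast at h1
    exact h1
  have hcb : ((p : ℤ) ^ U) ∣ (b : ℤ) ^ (p - 1) - 1 := by
    have h1 : ((p ^ U : ℕ) : ℤ) ∣ ((b ^ (p - 1) - 1 : ℕ) : ℤ) := Int.natCast_dvd_natCast.mpr hb
    rw [Nat.cast_sub (Nat.one_le_pow _ _ hb0)] at h1
    push_cast at h1
    exact h1
  have hd : ((p : ℤ) ^ U) ∣ (∑ i ∈ Finset.range (p - 1), (b : ℤ) ^ i * (a : ℤ) ^ (p - 1 - 1 - i))
      * ((b : ℤ) - a) := by
    rw [(Commute.all (b : ℤ) a).geom_sum₂_mul]
    have h1 := dvd_sub hcb hca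
    have h2 : (b : ℤ) ^ (p - 1) - 1 - ((a : ℤ) ^ (p - 1) - 1) = (b : ℤ) ^ (p - 1) - a ^ (p - 1) := by
      ring
    rwa [h2] at h1
  have hS : ¬ (p : ℤ) ∣ ∑ i ∈ Finset.range (p - 1), (b : ℤ) ^ i * (a : ℤ) ^ (p - 1 - 1 - i) := by
    intro h
    have h1 := (ZMod.intCast_zmod_eq_zero_iff_dvd _ p).mpr h
    push_cast at h1
    have hab' : (a : ZMod p) = (b : ZMod p) := (ZMod.natCast_eq_natCast_iff a b p).mpr hab
    have h2 : ∑ i ∈ Finset.range (p - 1), (b : ZMod p) ^ i * (a : ZMod p) ^ (p - 1 - 1 - i)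
        = ((p - 1 : ℕ) : ZMod p) * (a : ZMod p) ^ (p - 1 - 1) := by
      rw [Finset.sum_congr rfl (g := fun _ => (a : ZMod p) ^ (p - 1 - 1))]
      · rw [Finset.sum_const, Finset.card_range, nsmul_eq_mul]
      · intro i hi
        rw [Finset.mem_range] at hi
        rw [← hab', ← pow_add]
        congr 1
        omega
    rw [h2] at h1
    rcases mul_eq_zero.mp h1 with h3 | h3
    · have h4 := (ZMod.natCast_eq_zero_iff _ _).mp h3
      have h5 := Nat.le_of_dvd (by have := hp.two_le; omega) h4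
      have := hp.two_le
      omega
    · have h5 : (a : ZMod p) = 0 := eq_zero_of_pow_eq_zero h3
      exact hpa ((ZMod.natCast_eq_zero_iff _ _).mp h5)
  have hcop : IsCoprime ((p : ℤ) ^ U)
      (∑ i ∈ Finset.range (p - 1), (b : ℤ) ^ i * (a : ℤ) ^ (p - 1 - 1 - i)) := by
    refine IsCoprime.pow_left ?_
    exact (Prime.coprime_iff_not_dvd (Nat.prime_iff_prime_int.mp hp)).mpr hS
  have hfin := hcop.dvd_of_dvd_mul_left hd
  refine (Nat.modEq_iff_dvd).mpr ?_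
  push_cast
  exact hfin

/-- At most `(p - 1) (N / p ^ U + 1)` solutions in `[1, N]`. -/
theorem card_solutions {p U : ℕ} (hp : p.Prime) (hU : 1 ≤ U) (N : ℕ) (s : Finset ℕ)
    (hs : ∀ n ∈ s, 1 ≤ n ∧ n ≤ N ∧ p ^ U ∣ n ^ (p - 1) - 1) :
    s.card ≤ (p - 1) * (N / p ^ U + 1) := by
  have hcard : ((Finset.range (p - 1)) ×ˢ (Finset.range (N / p ^ U + 1))).card
      = (p - 1) * (N / p ^ U + 1) := by
    rw [Finset.card_product, Finset.card_range, Finset.card_range]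
  rw [← hcard]
  refine Finset.card_le_card_of_injOn (fun n => (n % p - 1, n / p ^ U)) ?_ ?_
  · intro n hn
    obtain ⟨h1, h2, h3⟩ := hs n hn
    have h4 := M2_not_dvd hp hU h3 h1
    have h5 : n % p ≠ 0 := fun h => h4 (Nat.dvd_of_mod_eq_zero h)
    have h6 : n % p < p := Nat.mod_lt _ hp.pos
    have h7 : n / p ^ U ≤ N / p ^ U := Nat.div_le_div_right h2
    simp only [Finset.coe_product, Finset.coe_range, Set.mem_prod, Set.mem_Iio]
    omega
  · intro n hn m hm hnm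
    obtain ⟨h1, h2, h3⟩ := hs n hn
    obtain ⟨k1, k2, k3⟩ := hs m hm
    have h4 := M2_not_dvd hp hU h3 h1
    have k4 := M2_not_dvd hp hU k3 k1
    have h5 : n % p ≠ 0 := fun h => h4 (Nat.dvd_of_mod_eq_zero h)
    have k5 : m % p ≠ 0 := fun h => k4 (Nat.dvd_of_mod_eq_zero h)
    have e := Prod.mk.inj hnm
    have e1 : n % p = m % p := by
      have := e.1
      omega
    have e2 : n % p ^ U = m % p ^ U := modEq_pow hp hU h3 h1 k3 k1 e1
    rw [← Nat.div_add_mod n (p ^ U), ← Nat.div_add_mod m (p ^ U), e.2, e2]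

end Pool.Agent.H87.YA
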