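import Pool.Agent.H87.YA.M2

/-!
# Products of primes in the subgroup of order `p - 1`

PROOF of `choose_le`: `card (powersetCard m A) = choose (card A) m`; the map `s -> ∏ q in s, q` is
injective on it (a prime `q` divides `∏ s` iff `q ∈ s`: `Prime.dvd_finset_prod_iff`), values are
between `1` and `X ^ m` and satisfy the congruence (`Int.ModEq`/`Nat.ModEq` products, or in
`ZMod (p ^ U)`: `(∏ q) ^ (p - 1) = 1`); apply `card_solutions` to the image.
PROOF of `card_le_root`: if `card A < m` trivial.  Otherwise `(card A + 1 - m) ^ m <= m! * choose`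
(`Nat.pow_le_choose` or `Nat.pow_sub_le_descFactorial`), `m! <= m ^ m`, and take `m`-th roots
(`Real.pow_rpow_inv_natCast`, `Real.mul_rpow`).
-/

namespace Pool.Agent.H87.YA

/-- The products of the `m`-element subsets of `A` are different solutions below `X ^ m`. -/
theorem choose_le {p U X m : ℕ} (hp : p.Prime) (hU : 1 ≤ U) (A : Finset ℕ)
    (hA : ∀ q ∈ A, q.Prime ∧ q ≤ X ∧ p ^ U ∣ q ^ (p - 1) - 1) :
    A.card.choose m ≤ (p - 1) * (X ^ m / p ^ U + 1) := by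
  classical
  have hinj : Set.InjOn (fun s : Finset ℕ => ∏ q ∈ s, q) (Finset.powersetCard m A : Set (Finset ℕ)) := by
    have key : ∀ s t : Finset ℕ, s ⊆ A → t ⊆ A → ∏ q ∈ s, q = ∏ q ∈ t, q → s ⊆ t := by
      intro s t hs ht h q hq
      have h1 : q ∣ ∏ r ∈ t, r := by
        rw [← h]
        exact Finset.dvd_prod_of_mem _ hq
      obtain ⟨r, hr, hqr⟩ := ((hA q (hs hq)).1.prime.dvd_finsetProd_iff _).1 h1
      rw [(Nat.prime_dvd_prime_iff_eq (hA q (hs hq)).1 (hA r (ht hr)).1).1 hqr]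
      exact hr
    intro s hs t ht h
    rw [Finset.mem_coe, Finset.mem_powersetCard] at hs ht
    exact (key s t hs.1 ht.1 h).antisymm (key t s ht.1 hs.1 h.symm)
  rw [← Finset.card_powersetCard, ← Finset.card_image_of_injOn hinj]
  apply card_solutions hp hU
  intro n hn
  rw [Finset.mem_image] at hn
  obtain ⟨s, hs, rfl⟩ := hn
  rw [Finset.mem_powersetCard] at hs
  have hpos : 0 < ∏ q ∈ s, q := Finset.prod_pos fun q hq => (hA q (hs.1 hq)).1.pos
  refine ⟨hpos, ?_, ?_⟩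
  · calc ∏ q ∈ s, q ≤ ∏ _q ∈ s, X := Finset.prod_le_prod' fun q hq => (hA q (hs.1 hq)).2.1
      _ = X ^ m := by rw [Finset.prod_const, hs.2]
  · rw [← Nat.modEq_iff_dvd' (Nat.one_le_pow _ _ hpos), ← Finset.prod_pow]
    clear hpos
    obtain ⟨hs, -⟩ := hs
    induction s using Finset.induction_on with
    | empty => rfl
    | insert q s hq ih =>
      rw [Finset.prod_insert hq]
      have h1 := hA q (hs (Finset.mem_insert_self q s))
      have h2 : 1 ≡ q ^ (p - 1) [MOD p ^ U] :=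
        (Nat.modEq_iff_dvd' (Nat.one_le_pow _ _ h1.1.pos)).2 h1.2.2
      exact h2.mul (ih ((Finset.subset_insert q s).trans hs))

/-- The resulting upper bound for the cardinality. -/
theorem card_le_root {p U X m : ℕ} (hp : p.Prime) (hU : 1 ≤ U) (hm : 1 ≤ m) (A : Finset ℕ)
    (hA : ∀ q ∈ A, q.Prime ∧ q ≤ X ∧ p ^ U ∣ q ^ (p - 1) - 1) :
    (A.card : ℝ) ≤ (m : ℝ) +
      (m : ℝ) * ((p : ℝ) * ((X : ℝ) ^ m / (p : ℝ) ^ U + 1)) ^ (1 / (m : ℝ)) := by
  have hB : 0 ≤ (p : ℝ) * ((X : ℝ) ^ m / (p : ℝ) ^ U + 1) := by positivity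
  have hR : 0 ≤ ((p : ℝ) * ((X : ℝ) ^ m / (p : ℝ) ^ U + 1)) ^ (1 / (m : ℝ)) :=
    Real.rpow_nonneg hB _
  rcases Nat.lt_or_ge A.card m with hlt | hge
  · have h1 : (A.card : ℝ) ≤ m := by exact_mod_cast hlt.le
    have h2 : 0 ≤ (m : ℝ) * ((p : ℝ) * ((X : ℝ) ^ m / (p : ℝ) ^ U + 1)) ^ (1 / (m : ℝ)) :=
      mul_nonneg (Nat.cast_nonneg m) hR
    linarith
  · have h1 : (A.card + 1 - m) ^ m ≤ m ^ m * ((p - 1) * (X ^ m / p ^ U + 1)) := by
      calc (A.card + 1 - m) ^ m ≤ A.card.descFactorial m := Nat.pow_sub_le_descFactorial _ _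
        _ = m.factorial * A.card.choose m := Nat.descFactorial_eq_factorial_mul_choose _ _
        _ ≤ m ^ m * ((p - 1) * (X ^ m / p ^ U + 1)) :=
          Nat.mul_le_mul (Nat.factorial_le_pow m) (choose_le hp hU A hA)
    have h2 : ((A.card + 1 - m : ℕ) : ℝ) ^ m ≤
        (m : ℝ) ^ m * ((p : ℝ) * ((X : ℝ) ^ m / (p : ℝ) ^ U + 1)) := by
      have h3 : (((A.card + 1 - m) ^ m : ℕ) : ℝ) ≤
          ((m ^ m * ((p - 1) * (X ^ m / p ^ U + 1)) : ℕ) : ℝ) := Nat.cast_le.2 h1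
      rw [Nat.cast_pow] at h3
      refine h3.trans ?_
      rw [Nat.cast_mul, Nat.cast_mul, Nat.cast_pow]
      refine mul_le_mul_of_nonneg_left ?_ (by positivity)
      have h4 : ((p - 1 : ℕ) : ℝ) ≤ p := Nat.cast_le.2 (Nat.sub_le p 1)
      have h5 : ((X ^ m / p ^ U + 1 : ℕ) : ℝ) ≤ (X : ℝ) ^ m / (p : ℝ) ^ U + 1 := by
        have h6 := Nat.cast_div_le (α := ℝ) (m := X ^ m) (n := p ^ U)
        rw [Nat.cast_pow, Nat.cast_pow] at h6
        rw [Nat.cast_add, Nat.cast_one]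
        linarith
      exact mul_le_mul h4 h5 (Nat.cast_nonneg _) (Nat.cast_nonneg _)
    have hm0 : m ≠ 0 := by omega
    have h7 : ((A.card + 1 - m : ℕ) : ℝ) ≤
        (m : ℝ) * ((p : ℝ) * ((X : ℝ) ^ m / (p : ℝ) ^ U + 1)) ^ (1 / (m : ℝ)) := by
      have h8 : (((A.card + 1 - m : ℕ) : ℝ) ^ m) ^ (1 / (m : ℝ)) ≤
          ((m : ℝ) ^ m * ((p : ℝ) * ((X : ℝ) ^ m / (p : ℝ) ^ U + 1))) ^ (1 / (m : ℝ)) :=
        Real.rpow_le_rpow (by positivity) h2 (by positivity)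
      rw [Real.mul_rpow (by positivity) hB, one_div, Real.pow_rpow_inv_natCast (Nat.cast_nonneg _) hm0,
        Real.pow_rpow_inv_natCast (Nat.cast_nonneg _) hm0] at h8
      rw [one_div]
      exact h8
    have h9 : (A.card : ℝ) ≤ (m : ℝ) + ((A.card + 1 - m : ℕ) : ℝ) := by
      have h10 : A.card ≤ m + (A.card + 1 - m) := by omega
      exact_mod_cast h10
    linarith

end Pool.Agent.H87.YA
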