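import Pool.Agent.H87.YA.M3

/-!
# One dyadic interval: the cases `U = 3`

PROOF of `badIn_dvd`: `q` is bad: `p ^ u | q ^ (p-1) - 1` and `q < p ^ (u - 2)`.  In the first case
`p ^ (j - 1) <= X / 2 < q < p ^ (u - 2)`, so `j - 1 < u - 2` and `j + 2 <= u`; in the second case
`1 < q < p ^ (u - 2)` gives `u >= 3`.
PROOF of `card_badIn_root`: `card_le_root` for `A = BadIn p (X / 2) X`, `U = j + 2`, `⌊X⌋₊ <= X`,
and monotonicity of powers and of `rpow`.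
-/

namespace Pool.Agent.H87.YA

/-- The bad primes in `(X / 2, X]` solve the congruence modulo `p ^ (j + 2)` as soon as
`p ^ (j - 1) <= X / 2`. -/
theorem badIn_dvd {p j : ℕ} (hp : p.Prime) (hj : 1 ≤ j) {X : ℝ}
    (hX : (p : ℝ) ^ (j - 1) ≤ X / 2 ∨ j = 1) (q : ℕ) (hq : q ∈ BadIn p (X / 2) X) :
    q.Prime ∧ q ≤ ⌊X⌋₊ ∧ p ^ (j + 2) ∣ q ^ (p - 1) - 1 := by
  classical
  unfold BadIn at hq
  rw [Finset.mem_filter, Finset.mem_range] at hq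
  obtain ⟨h1, h2, ⟨u, hu, hqu⟩, h3⟩ := hq
  refine ⟨h2, by omega, (pow_dvd_pow p ?_).trans hu⟩
  rcases hX with hX | rfl
  · have h4 : ((p ^ (j - 1) : ℕ) : ℝ) < ((p ^ (u - 2) : ℕ) : ℝ) := by
      have h5 : (q : ℝ) < ((p ^ (u - 2) : ℕ) : ℝ) := by exact_mod_cast hqu
      push_cast at h5 ⊢
      linarith
    have h6 : p ^ (j - 1) < p ^ (u - 2) := by exact_mod_cast h4
    have h7 : j - 1 < u - 2 := (Nat.pow_lt_pow_iff_right hp.one_lt).1 h6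
    omega
  · have h4 : 1 < p ^ (u - 2) := lt_trans h2.one_lt hqu
    have h5 : u - 2 ≠ 0 := by
      intro h
      rw [h, pow_zero] at h4
      omega
    omega

/-- General bound in a dyadic interval, with `P = p`. -/
theorem card_badIn_root {p j m : ℕ} (hp : p.Prime) (hj : 1 ≤ j) (hm : 1 ≤ m) {X : ℝ}
    (hX2 : 2 ≤ X) (hX : (p : ℝ) ^ (j - 1) ≤ X / 2 ∨ j = 1) :
    ((BadIn p (X / 2) X).card : ℝ) ≤ (m : ℝ) +
      (m : ℝ) * ((p : ℝ) * (X ^ m / (p : ℝ) ^ (j + 2) + 1)) ^ (1 / (m : ℝ)) := by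
  have hp0 : (0 : ℝ) < p := by exact_mod_cast hp.pos
  have h1 := card_le_root (U := j + 2) (m := m) hp (by omega) hm (BadIn p (X / 2) X)
    (badIn_dvd hp hj hX)
  refine h1.trans ?_
  have h2 : ((⌊X⌋₊ : ℕ) : ℝ) ≤ X := Nat.floor_le (by linarith)
  have h3 : (((⌊X⌋₊ : ℕ) : ℝ)) ^ m ≤ X ^ m := pow_le_pow_left₀ (Nat.cast_nonneg _) h2 m
  have h4 : (p : ℝ) * (((⌊X⌋₊ : ℕ) : ℝ) ^ m / (p : ℝ) ^ (j + 2) + 1) ≤
      (p : ℝ) * (X ^ m / (p : ℝ) ^ (j + 2) + 1) := by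
    refine mul_le_mul_of_nonneg_left ?_ hp0.le
    have := div_le_div_of_nonneg_right h3 (pow_pos hp0 (j + 2)).le
    linarith
  have h5 : ((p : ℝ) * (((⌊X⌋₊ : ℕ) : ℝ) ^ m / (p : ℝ) ^ (j + 2) + 1)) ^ (1 / (m : ℝ)) ≤
      ((p : ℝ) * (X ^ m / (p : ℝ) ^ (j + 2) + 1)) ^ (1 / (m : ℝ)) :=
    Real.rpow_le_rpow (by positivity) h4 (by positivity)
  have h6 := mul_le_mul_of_nonneg_left h5 (Nat.cast_nonneg (α := ℝ) m)
  linarith

end Pool.Agent.H87.YA
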